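import Pool.Agent.MP_fcd29e_an.H81.Spec2

/-! The term near `K` is bounded. -/

namespace Pool.Agent.MP_fcd29e_an.H86

open Pool.Agent.MP_fcd29e_an.H81 MeasureTheory Complex Set Filter Topology Metric
open scoped ContDiff

theorem g3_rad {N : ℕ} {θ : ℝ → ℝ} (hθ : ContDiff ℝ ∞ θ) {A : ℝ} (hA : ∀ s, |deriv θ s * s| ≤ A)
    {z : E N} (hz : z ≠ 0) : ‖fderiv ℝ (fun y : E N => θ (‖y‖ ^ 2)) z‖ ≤ 2 * A / ‖z‖ := by
  have hn : 0 < ‖z‖ := norm_pos_iff.2 hz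
  have h1 := ((hθ.differentiable (by simp) (‖z‖ ^ 2)).hasDerivAt.comp_hasFDerivAt z
    (hasStrictFDerivAt_norm_sq z).hasFDerivAt).fderiv
  have h2 := hA (‖z‖ ^ 2)
  rw [abs_mul, abs_of_nonneg (sq_nonneg ‖z‖)] at h2
  change fderiv ℝ (fun y : E N => θ (‖y‖ ^ 2)) z = _ at h1
  rw [h1, norm_smul, two_smul, le_div_iff₀ hn, Real.norm_eq_abs]
  have h3 := norm_add_le (innerSL ℝ z) (innerSL ℝ z)
  rw [innerSL_apply_norm] at h3
  have h4 := mul_le_mul_of_nonneg_left h3 (mul_nonneg (abs_nonneg (deriv θ (‖z‖ ^ 2))) hn.le)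
  nlinarith

theorem g3_num {n d u σ C₃ : ℝ} (T : ℕ) (hn : 0 < n) (hd : 0 ≤ d) (hu : 1 ≤ u) (hnu : n⁻¹ ≤ u)
    (hσ : d / n ≤ σ) (h1 : σ ≤ 1) (h3 : 0 ≤ C₃) :
    (d / n) ^ (T + 7) / n ^ 2 ≤ σ ^ 6 * u ^ 3 ∧ (d / n) ^ (T + 7) / n ^ 3 ≤ σ ^ 6 * u ^ 3 ∧
      C₃ / d * ((d / n) ^ (T + 7) / n ^ 2) ≤ C₃ * (σ ^ 6 * u ^ 3) := by
  have h0 : 0 ≤ d / n := by positivity
  have hs : 0 ≤ σ := h0.trans hσ
  have a6 : ∀ k, (d / n) ^ (k + 6) ≤ σ ^ 6 := fun k =>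
    (pow_le_pow_of_le_one h0 (hσ.trans h1) (by omega)).trans (pow_le_pow_left₀ h0 hσ 6)
  have b3 : (n ^ 3)⁻¹ ≤ u ^ 3 := by rw [← inv_pow]; gcongr
  have b2 : (n ^ 2)⁻¹ ≤ u ^ 3 := by
    rw [← inv_pow]
    exact (pow_le_pow_left₀ (by positivity) hnu 2).trans (pow_le_pow_right₀ hu (by omega))
  refine ⟨?_, ?_, ?_⟩
  · rw [div_eq_mul_inv]
    exact mul_le_mul (a6 (T + 1)) b2 (by positivity) (by positivity)
  · rw [div_eq_mul_inv]
    exact mul_le_mul (a6 (T + 1)) b3 (by positivity) (by positivity)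
  · rcases hd.eq_or_lt with rfl | hd
    · rw [div_zero, zero_mul]
      positivity
    have e : C₃ / d * ((d / n) ^ (T + 7) / n ^ 2) = C₃ * ((d / n) ^ (T + 6) * (n ^ 3)⁻¹) := by
      rw [pow_succ (d / n) (T + 6)]
      field_simp
    rw [e]
    exact mul_le_mul_of_nonneg_left (mul_le_mul (a6 T) b3 (by positivity) (by positivity)) h3

theorem g3 (_L : Lv0) (hl : StmtLOG) (h : StmtS2) : StmtG3 := by
  intro N ρ K μ α C₂ C₃ hN h2 h3 hρ hK hμ hα hV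
  obtain ⟨-, -, -, C, hC, hb⟩ := h N ρ K μ (by omega) hρ hK hμ
  obtain ⟨-, -, -, -, A, hA, ht⟩ := hl
  refine ⟨C * (C₂ * (1 + 2 * A + C₃)) * 8 * Real.exp 1 ^ 6, fun L χ D p ψ m c hL G => ?_⟩
  obtain ⟨ts, tb, -⟩ := ht L
  obtain ⟨u, hu⟩ : ∃ u, u = Real.exp L := ⟨_, rfl⟩
  have u1 : 1 ≤ u := hu ▸ Real.one_le_exp (Nat.cast_nonneg L)
  have u0 : 0 < u := one_pos.trans_le u1
  have e1 : Real.exp (2 * L) = u ^ 2 := by rw [hu, ← Real.exp_nat_mul]; simp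
  have e2 : Real.exp (-(2 * L)) = u⁻¹ ^ 2 := by rw [Real.exp_neg, e1, inv_pow]
  have s1 : Real.exp 1 / u ≤ 1 := by
    rw [div_le_one u0, hu]
    exact Real.exp_le_exp.2 (by exact_mod_cast (by omega : 1 ≤ L))
  let g : E N → ℝ := fun z => (1 - χ z) * thL L (‖z‖ ^ 2)
  have hθ : ContDiff ℝ ∞ fun z : E N => thL L (‖z‖ ^ 2) := ts.comp (contDiff_norm_sq ℝ)
  have hg : ContDiff ℝ ∞ g := (contDiff_const.sub G.χs).mul hθ
  have hf : ∀ j k (z : E N), z ≠ 0 → ContDiffAt ℝ ∞ (d1 α j k) z := fun j k z hz =>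
    (contDiffAt_dzb j ((hα k).contDiffAt (isOpen_E0.mem_nhds hz))).sub
      (contDiffAt_dzb k ((hα j).contDiffAt (isOpen_E0.mem_nhds hz)))
  have hc : ∀ z : E N, (∀ j k, (fun y => (g y : ℂ) * d1 α j k y) =ᶠ[𝓝 z] fun _ => 0) ∨
      (u⁻¹ ≤ ‖z‖ ∧ infDist z K ≤ Real.exp 1 * u⁻¹ ^ 2) := by
    intro z
    by_cases hz : u⁻¹ ≤ ‖z‖
    · by_cases hd : infDist z K ≤ Real.exp 1 * u⁻¹ ^ 2
      · exact Or.inr ⟨hz, hd⟩
      refine Or.inl fun j k => (G.χ1 z ?_).mono fun y hy => by simp [g, hy]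
      rw [Real.exp_add, e2, mul_comm]
      exact not_le.1 hd
    refine Or.inl fun j k => ((continuous_norm.continuousAt (x := z)).eventually_lt
      continuousAt_const (not_le.1 hz)).mono fun y hy => ?_
    have : thL L (‖y‖ ^ 2) = 0 := by
      by_contra h0
      have h1 := ((tb _).2.2.1 h0).1
      rw [e2] at h1
      exact absurd h1 (not_lt.2 (pow_le_pow_left₀ (norm_nonneg y) hy.le 2))
    simp [g, this]
  have hz0 : ∀ z : E N, u⁻¹ ≤ ‖z‖ → z ≠ 0 := fun z hz =>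
    norm_pos_iff.1 ((inv_pos.2 u0).trans_le hz)
  have hout : ∀ j k (z : E N), 2 * u < ‖z‖ → (g z : ℂ) * d1 α j k z = 0 := by
    intro j k z hz
    have : thL L (‖z‖ ^ 2) = 0 := by
      by_contra h0
      have h1 := ((tb _).2.2.1 h0).2
      rw [e1] at h1
      nlinarith
    simp [g, this]
  have hq : 0 ≤ (Real.exp 1 / u) ^ 6 * u ^ 3 := by positivity
  refine (hb _ (C₂ * (1 + 2 * A + C₃) * ((Real.exp 1 / u) ^ 6 * u ^ 3)) (2 * u)
    (fun j k => ⟨contDiff_iff_contDiffAt.2 fun z => ?_, ?_⟩) (by linarith)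
    fun j k z => ⟨?_, ?_, hout j k z⟩).trans_eq (by field_simp; ring)
  · rcases hc z with h0 | h0
    · exact contDiffAt_const.congr_of_eventuallyEq (h0 j k)
    · exact (contDiffAt_cx hg.contDiffAt).mul (hf j k z (hz0 z h0.1))
  · exact HasCompactSupport.intro (isCompact_closedBall 0 (2 * u)) fun z hz =>
      hout j k z (by simpa using hz)
  all_goals
    rcases hc z with h0 | ⟨h0, hd⟩
    · have a1 : (g z : ℂ) * d1 α j k z = 0 := (h0 j k).self_of_nhds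
      have a2 : fderiv ℝ (fun y => (g y : ℂ) * d1 α j k y) z = 0 := by
        rw [(h0 j k).fderiv_eq, fderiv_fun_const, Pi.zero_apply]
      first | rw [a1, norm_zero] | rw [a2, norm_zero]
      positivity
    have hz := hz0 z h0
    have hn : 0 < ‖z‖ := norm_pos_iff.2 hz
    have hnu : ‖z‖⁻¹ ≤ u := inv_le_of_inv_le₀ u0 h0
    have hσ : infDist z K / ‖z‖ ≤ Real.exp 1 / u := by
      rw [div_eq_mul_inv]
      refine (mul_le_mul hd hnu (by positivity) (by positivity)).trans_eq ?_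
      field_simp
    obtain ⟨n1, n2, n3⟩ := g3_num (2 * N + 1) hn infDist_nonneg u1 hnu hσ s1 h3
    obtain ⟨v1, v2⟩ := hV j k z hz
    rw [mul_div_assoc] at v1 v2
    have g1 : |1 - χ z| ≤ 1 := abs_le.2 ⟨by linarith [(G.χb z).2], by linarith [(G.χb z).1]⟩
    have g2 : |thL L (‖z‖ ^ 2)| ≤ 1 := abs_le.2 ⟨by linarith [(tb (‖z‖ ^ 2)).1], (tb _).2.1⟩
    have g3 : |g z| ≤ 1 := by
      rw [abs_mul]
      exact mul_le_one₀ g1 (abs_nonneg _) g2
    have w1 := v1.trans (mul_le_mul_of_nonneg_left n1 h2)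
    have hq2 := mul_nonneg h2 hq
  · rw [norm_mul, norm_real, Real.norm_eq_abs]
    refine (mul_le_of_le_one_left (norm_nonneg _) g3).trans (w1.trans ?_)
    nlinarith [mul_nonneg hq2 hA, mul_nonneg hq2 h3]
  · have d1' := (ContDiffAt.da (hf j k z hz)).hasFDerivAt
    have dχ := (G.χs.differentiable (by simp) z).hasFDerivAt
    have dθ := (hθ.differentiable (by simp) z).hasFDerivAt
    have dg := ((dχ.const_sub 1).mul dθ).smul d1'
    have e3 : fderiv ℝ (fun y => (((1 - χ y) * thL L (‖y‖ ^ 2) : ℝ) : ℂ) * d1 α j k y) z = _ :=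
      dg.fderiv
    have r1 := g3_rad ts (fun s => (tb s).2.2.2.1) hz
    have r2 : ‖(1 - χ z) • fderiv ℝ (fun y : E N => thL L (‖y‖ ^ 2)) z +
        thL L (‖z‖ ^ 2) • -fderiv ℝ χ z‖ ≤ 2 * A / ‖z‖ + C₃ / infDist z K := by
      refine (norm_add_le _ _).trans (add_le_add ?_ ?_) <;> rw [norm_smul, Real.norm_eq_abs]
      · exact (mul_le_of_le_one_left (norm_nonneg _) g1).trans r1
      · rw [norm_neg]
        exact (mul_le_of_le_one_left (norm_nonneg _) g2).trans (G.χd z)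
    rw [e3]
    refine (norm_add_le _ _).trans ?_
    rw [norm_smul, ContinuousLinearMap.norm_smulRight_apply, Real.norm_eq_abs]
    have w2 := (mul_le_of_le_one_left (norm_nonneg _) g3).trans
      (v2.trans (mul_le_mul_of_nonneg_left n2 h2))
    have w3 := mul_le_mul r2 v1 (norm_nonneg _)
      (add_nonneg (by positivity) (div_nonneg h3 infDist_nonneg))
    have e4 : 2 * A / ‖z‖ * (C₂ * ((infDist z K / ‖z‖) ^ (2 * N + 8) / ‖z‖ ^ 2)) =
        2 * A * C₂ * ((infDist z K / ‖z‖) ^ (2 * N + 1 + 7) / ‖z‖ ^ 3) := by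
      field_simp
    have w4 := mul_le_mul_of_nonneg_left n2 (by positivity : 0 ≤ 2 * A * C₂)
    have w5 := mul_le_mul_of_nonneg_left n3 h2
    refine (add_le_add w2 w3).trans ?_
    rw [add_mul, e4]
    linarith

end Pool.Agent.MP_fcd29e_an.H86
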